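import Pool.Agent.H937.QS.Stm3
import Pool.Agent.H413.RS.Indep
import Pool.Agent.H894.QS.RET

/-!
Project QS (helper937), task CH3 (helper401): the charts for three points are smooth.
-/

set_option autoImplicit false

open scoped Matrix TensorProduct
open Pool.Agent.H937.QS

universe u

namespace Pool.Agent.H401.QS.CH3

section poly

variable {R S : Type u} [CommRing R] [CommRing S]

theorem map_DF3 (φ : R →+* S) (a : Fin 6 → R) (i m l : Fin 3) :
    φ (DF3 a i m l) = DF3 (fun s => φ (a s)) i m l := by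
  fin_cases i
  · show φ ((1 : Matrix (Fin 3) (Fin 3) R) m l) = (1 : Matrix (Fin 3) (Fin 3) S) m l
    rw [Matrix.one_apply, Matrix.one_apply]
    split_ifs <;> simp
  · fin_cases m <;> fin_cases l <;> simp [DF3]
  · fin_cases m <;> fin_cases l <;> simp [DF3]

theorem det_upd {n : ℕ} (A : Matrix (Fin n) (Fin n) R) (v : Fin n → R) (r : Fin n) :
    (A.updateCol r (A *ᵥ v)).det = A.det * v r := by
  rw [← Matrix.cramer_apply, Matrix.cramer_eq_adjugate_mulVec, Matrix.mulVec_mulVec,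
    Matrix.adjugate_mul, Matrix.smul_mulVec, Matrix.one_mulVec, Pi.smul_apply, smul_eq_mul]

theorem map_det_upd {n : ℕ} (φ : R →+* S) (A : Matrix (Fin n) (Fin n) R) (v : Fin n → R)
    (r : Fin n) :
    φ ((A.updateCol r v).det) = ((A.map φ).updateCol r fun i => φ (v i)).det := by
  rw [RingHom.map_det, RingHom.mapMatrix_apply, Matrix.map_updateCol]
  rfl

end poly

section co

variable {L : Type u} [Field L] {n : ℕ} {N : Matrix (Fin n) (Fin n) L}

theorem mul_co (hN : N.det ≠ 0) (f : Fin n → L) : N *ᵥ (N⁻¹ *ᵥ f) = f := by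
  rw [Matrix.mulVec_mulVec, Matrix.mul_nonsing_inv _ (isUnit_iff_ne_zero.2 hN), Matrix.one_mulVec]

theorem co_mul (hN : N.det ≠ 0) (f : Fin n → L) : N⁻¹ *ᵥ (N *ᵥ f) = f := by
  rw [Matrix.mulVec_mulVec, Matrix.nonsing_inv_mul _ (isUnit_iff_ne_zero.2 hN), Matrix.one_mulVec]

theorem inj (hN : N.det ≠ 0) {f g : Fin n → L} (h : N *ᵥ f = N *ᵥ g) : f = g := by
  rw [← co_mul hN f, h, co_mul hN]

theorem co_eq (hN : N.det ≠ 0) {f g : Fin n → L} (h : N *ᵥ f = g) : N⁻¹ *ᵥ g = f := by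
  rw [← h, co_mul hN]

end co

/-- The smoothness of the chart from the universal algebra. -/
theorem smooth_C {k B M L : Type u} [Field k] [CommRing B] [Algebra k B] [Field M]
    [Algebra k M] [Field L] [Algebra k L] (ι : M →ₐ[k] L) {n : ℕ} (ev : B →ₐ[k] (Fin n → M))
    (ev' : B → Fin n → L) (hev : ∀ b q, ev' b q = ι (ev b q))
    (T : Matrix (Fin n) (Fin n) L) (hTd : T.det ≠ 0)
    (U : Type u) [CommRing U] [Algebra k U] (hUs : Algebra.Smooth k U) (G : U →ₐ[k] L)
    (hGinj : Function.Injective G) (yU : B → Fin n → U)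
    (hGy : ∀ b i, G (yU b i) = (T⁻¹ *ᵥ ev' b) i)
    (m : Fin n → B) (N : Matrix (Fin n) (Fin n) M) (hN : ∀ q i, N q i = ev (m i) q)
    (hNd : N.det ≠ 0) (C : Subalgebra k M)
    (hC : C = Algebra.adjoin k {z : M | ∃ b i, z = (N⁻¹ *ᵥ ev b) i})
    (π : U →ₐ[k] C) (hπ : ∀ b i, (π (yU b i) : M) = (N⁻¹ *ᵥ ev b) i) :
    Algebra.Smooth k C := by
  obtain ⟨πM, hπM⟩ : ∃ πM : U →ₐ[k] M, πM = C.val.comp π := ⟨_, rfl⟩
  have hπMv : ∀ x, (π x : M) = πM x := fun x => by rw [hπM]; rfl
  have hπy : ∀ b r, πM (yU b r) = (N⁻¹ *ᵥ ev b) r := fun b r => by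
    rw [← hπMv, hπ]
  -- the matrix
  obtain ⟨g, hg⟩ : ∃ g : Matrix (Fin n) (Fin n) U, g = Matrix.of fun i l => yU (m l) i :=
    ⟨_, rfl⟩
  have hge : ∀ i l, g i l = yU (m l) i := fun i l => by rw [hg]; rfl
  have hTG : T * g.map G = N.map ι := by
    ext q l
    have h1 := congrFun (mul_co hTd (ev' (m l))) q
    rw [Matrix.map_apply, hN, ← hev, ← h1, Matrix.mul_apply]
    show ∑ i, T q i * (g.map G) i l = ∑ i, T q i * (T⁻¹ *ᵥ ev' (m l)) i
    refine Finset.sum_congr rfl fun i _ => ?_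
    rw [Matrix.map_apply, hge, hGy]
  have hgπ : g.map πM = 1 := by
    ext i l
    rw [Matrix.map_apply, hge, hπy]
    have h1 : N⁻¹ *ᵥ (ev (m l)) = Pi.single l 1 := by
      refine co_eq hNd ?_
      funext q
      rw [Matrix.mulVec_single_one, Matrix.col_apply, hN]
    rw [h1, Matrix.one_apply, Pi.single_apply]
  have hdetG : T.det * G g.det = ι N.det := by
    have h1 := congrArg Matrix.det hTG
    rw [Matrix.det_mul] at h1
    have h2 : G g.det = (g.map G).det := RingHom.map_det G.toRingHom g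
    have h3 : ι N.det = (N.map ι).det := RingHom.map_det ι.toRingHom N
    rw [h2, h3, h1]
  have hιN : ι N.det ≠ 0 := by
    rw [Ne, map_eq_zero]
    exact hNd
  have hdG0 : G g.det ≠ 0 := by
    intro h
    rw [h, mul_zero] at hdetG
    exact hιN hdetG.symm
  have hdetπ : πM g.det = 1 := by
    have h1 : πM g.det = (g.map πM).det := RingHom.map_det πM.toRingHom g
    rw [h1, hgπ, Matrix.det_one]
  have hGg : ∀ b, (g.map G) *ᵥ (fun i => ι ((N⁻¹ *ᵥ ev b) i)) = fun i => G (yU b i) := by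
    intro b
    apply inj hTd
    rw [Matrix.mulVec_mulVec, hTG]
    have h1 : (fun i => G (yU b i)) = T⁻¹ *ᵥ (ev' b) := funext fun i => hGy b i
    rw [h1, mul_co hTd]
    funext q
    rw [hev]
    have h2 := congrFun (mul_co hNd (ev b)) q
    rw [← h2]
    show ∑ i, (N.map ι) q i * ι ((N⁻¹ *ᵥ ev b) i) = ι (∑ i, N q i * (N⁻¹ *ᵥ ev b) i)
    rw [map_sum]
    refine Finset.sum_congr rfl fun i _ => ?_
    rw [map_mul, Matrix.map_apply]
  have hπ1 : ∀ x, πM x = 1 → π x = 1 := fun x hx => Subtype.ext (by rw [hπMv, hx]; rfl)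
  refine Pool.Agent.H894.QS.RET.smooth_of_data hUs ι G hGinj C π g.det ?_ hdG0
    {z : M | ∃ b i, z = (N⁻¹ *ᵥ ev b) i} hC ?_
  · exact hπ1 _ hdetπ
  · rintro z ⟨b, i, rfl⟩
    refine ⟨(g.adjugate *ᵥ yU b) i, ?_, ?_⟩
    · rw [hπMv]
      have h1 : πM ((g.adjugate *ᵥ yU b) i) = πM ((g.updateCol i (yU b)).det) := by
        rw [← Matrix.cramer_apply, Matrix.cramer_eq_adjugate_mulVec]
      have h2 : πM ((g.updateCol i (yU b)).det) =
          πM.toRingHom ((g.updateCol i (yU b)).det) := rfl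
      rw [h1, h2, map_det_upd]
      have h3 : (fun i' => πM.toRingHom (yU b i')) =
          (1 : Matrix (Fin n) (Fin n) M) *ᵥ (N⁻¹ *ᵥ (ev b)) := by
        rw [Matrix.one_mulVec]
        funext i'
        exact hπy _ _
      have h4 : g.map πM.toRingHom = 1 := hgπ
      rw [h3, h4, det_upd, Matrix.det_one, one_mul]
    · have h1 : G ((g.adjugate *ᵥ yU b) i) = G ((g.updateCol i (yU b)).det) := by
        rw [← Matrix.cramer_apply, Matrix.cramer_eq_adjugate_mulVec]
      have h2 : G ((g.updateCol i (yU b)).det) =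
          G.toRingHom ((g.updateCol i (yU b)).det) := rfl
      rw [h1, h2, map_det_upd]
      have h3 : (fun i' => G.toRingHom (yU b i')) =
          (g.map G) *ᵥ (fun i' => ι ((N⁻¹ *ᵥ ev b) i')) := (hGg b).symm
      have h4 : G g.det = (g.map G).det := RingHom.map_det G.toRingHom g
      have h5 : ((g.map G.toRingHom).updateCol i
          ((g.map G) *ᵥ (fun i' => ι ((N⁻¹ *ᵥ ev b) i')))).det = (g.map G).det *
            ι ((N⁻¹ *ᵥ ev b) i) := det_upd (g.map G) _ i
      rw [h3, h5, h4]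

/-- the coordinates of a product -/
theorem hom_mul (hSTR3 : S_STR3.{u}) {M : Type u} [Field M]
    {N : Matrix (Fin 3) (Fin 3) M} (hN0 : ∀ q, N q 0 = 1) (hNd : N.det ≠ 0) (f g : Fin 3 → M) :
    N⁻¹ *ᵥ (f * g) = (∑ i, (N⁻¹ *ᵥ f) i • DF3 (par3 N) i) *ᵥ (N⁻¹ *ᵥ g) := by
  refine co_eq hNd ?_
  have h1 := hSTR3.2.1 M N hN0 hNd
  have hf : ∀ q, f q = ∑ i, N q i * (N⁻¹ *ᵥ f) i := fun q => by
    have := congrFun (mul_co hNd f) q
    rw [← this]
    rfl
  have hg : ∀ q, g q = ∑ i, N q i * (N⁻¹ *ᵥ g) i := fun q => by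
    have := congrFun (mul_co hNd g) q
    rw [← this]
    rfl
  obtain ⟨x, hx⟩ : ∃ x, x = N⁻¹ *ᵥ f := ⟨_, rfl⟩
  obtain ⟨y, hy⟩ : ∃ y, y = N⁻¹ *ᵥ g := ⟨_, rfl⟩
  rw [← hx] at hf ⊢
  rw [← hy] at hg ⊢
  funext q
  rw [Pi.mul_apply, hf q, hg q, Finset.sum_mul_sum]
  have h2 : ∀ i l, N q i * x i * (N q l * y l) =
      ∑ m, N q m * (x i * DF3 (par3 N) i m l * y l) := by
    intro i l
    calc N q i * x i * (N q l * y l) =
          (N q i * N q l) * (x i * y l) := by ring
      _ = _ := by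
          rw [h1, Finset.sum_mul]
          refine Finset.sum_congr rfl fun m _ => ?_
          ring
  simp only [h2]
  simp only [Matrix.mulVec, dotProduct, Matrix.sum_apply, Matrix.smul_apply, smul_eq_mul,
    Finset.mul_sum, Finset.sum_mul]
  have e1 : ∑ i, ∑ l, ∑ m, N q m * (x i * DF3 (par3 N) i m l * y l) =
      ∑ m, ∑ l, ∑ i, N q m * (x i * DF3 (par3 N) i m l * y l) := by
    rw [Finset.sum_comm]
    rw [Finset.sum_congr rfl fun l _ => Finset.sum_comm]
    rw [Finset.sum_comm]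
  exact e1.symm

/-- the homomorphism to the chart -/
theorem exists_pi (hSTR3 : S_STR3.{u}) {k B M : Type u} [Field k] [CommRing B] [Algebra k B]
    [Field M] [Algebra k M] (ev : B →ₐ[k] (Fin 3 → M)) (m : Fin 3 → B) (hm0 : m 0 = 1)
    (N : Matrix (Fin 3) (Fin 3) M) (hN : ∀ q i, N q i = ev (m i) q) (hNd : N.det ≠ 0)
    (D : MulData 2 (MvPolynomial (Fin 6) k)) (hD : ∀ i, D.F i = DF3 MvPolynomial.X i)
    (C : Subalgebra k M) (hC : C = Algebra.adjoin k {z : M | ∃ b i, z = (N⁻¹ *ᵥ ev b) i}) :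
    ∃ π : UU k B D →ₐ[k] C, ∀ b i, (π ((Uhom k B D b).v i) : M) = (N⁻¹ *ᵥ ev b) i := by
  have hN0 : ∀ q, N q 0 = 1 := by
    intro q
    rw [hN, hm0, map_one]
    rfl
  have hcoK : ∀ b i, (N⁻¹ *ᵥ ev b) i ∈ C := fun b i => by
    rw [hC]
    exact Algebra.subset_adjoin ⟨b, i, rfl⟩
  have hsc : ∀ i l : Fin 3, (fun q => N q i * N q l) = ev (m i * m l) := by
    intro i l
    funext q
    rw [map_mul, Pi.mul_apply, hN, hN]
  have hscK : ∀ (i l r : Fin 3), (N⁻¹ *ᵥ fun q => N q i * N q l) r ∈ C := by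
    intro i l r
    rw [hsc]
    exact hcoK _ _
  have hparK : ∀ s, par3 N s ∈ C := by
    intro s
    fin_cases s
    · exact hscK 1 1 1
    · exact hscK 1 1 2
    · exact hscK 1 2 1
    · exact hscK 1 2 2
    · exact hscK 2 2 1
    · exact hscK 2 2 2
  let aC : MvPolynomial (Fin 6) k →ₐ[k] C :=
    MvPolynomial.aeval fun s => (⟨par3 N s, hparK s⟩ : C)
  letI : Algebra (MvPolynomial (Fin 6) k) C := aC.toRingHom.toAlgebra
  haveI : IsScalarTower k (MvPolynomial (Fin 6) k) C :=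
    IsScalarTower.of_algebraMap_eq fun x => (aC.commutes x).symm
  have halg : ∀ x : MvPolynomial (Fin 6) k, algebraMap (MvPolynomial (Fin 6) k) C x = aC x :=
    fun x => rfl
  have hDF : ∀ i r l, (((DU D C).F i r l : C) : M) = DF3 (par3 N) i r l := by
    intro i r l
    have h1 : (DU D C).F i r l = aC (D.F i r l) := rfl
    have h2 : ((aC (D.F i r l) : C) : M) = (C.val.comp aC).toRingHom (D.F i r l) := rfl
    rw [h1, h2, hD, map_DF3]
    congr 1
    congr 1
    funext s
    show ((aC (MvPolynomial.X s) : C) : M) = par3 N s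
    have h3 : aC (MvPolynomial.X s) = ⟨par3 N s, hparK s⟩ := MvPolynomial.aeval_X _ _
    rw [h3]
  let f0 : B → Al (DU D C) := fun b => ⟨fun i => ⟨(N⁻¹ *ᵥ ev b) i, hcoK b i⟩⟩
  have hf0 : ∀ b i, (((f0 b).v i : C) : M) = (N⁻¹ *ᵥ ev b) i := fun b i => rfl
  have hadd : ∀ b b', f0 (b + b') = f0 b + f0 b' := by
    intro b b'
    apply Al.ext
    funext i
    apply Subtype.ext
    show (N⁻¹ *ᵥ ev (b + b')) i = (N⁻¹ *ᵥ ev b) i + (N⁻¹ *ᵥ ev b') i
    rw [map_add, Matrix.mulVec_add, Pi.add_apply]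
  have hmul : ∀ b b', f0 (b * b') = f0 b * f0 b' := by
    intro b b'
    apply Al.ext
    funext i
    apply Subtype.ext
    rw [hf0, Al.mul_v, map_mul, hom_mul hSTR3 hN0 hNd]
    rw [MulData.M]
    simp only [Matrix.mulVec, dotProduct, Matrix.sum_apply, Matrix.smul_apply, smul_eq_mul]
    have h1 : ∀ (x : C), (x : M) = C.val.toRingHom x := fun x => rfl
    rw [h1, map_sum]
    refine Finset.sum_congr rfl fun l _ => ?_
    rw [map_mul, map_sum]
    congr 1
    refine Finset.sum_congr rfl fun i' _ => ?_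
    rw [map_mul, ← h1 ((DU D C).F i' i l), hDF]
    rfl
  have halgk : ∀ c : k, f0 (algebraMap k B c) = algebraMap k (Al (DU D C)) c := by
    intro c
    apply Al.ext
    funext i
    apply Subtype.ext
    rw [hf0, Al.algebraMap_v]
    have h1 : N⁻¹ *ᵥ (ev (algebraMap k B c)) = Pi.single 0 (algebraMap k M c) := by
      refine co_eq hNd ?_
      funext q
      rw [AlgHom.commutes, Matrix.mulVec_single, Pi.smul_apply,
        Matrix.col_apply, hN0, MulOpposite.smul_eq_mul_unop, MulOpposite.unop_op, one_mul]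
      rfl
    rw [h1]
    rcases eq_or_ne i 0 with rfl | hi
    · rw [Pi.single_eq_same, Pi.single_eq_same]
      rfl
    · rw [Pi.single_eq_of_ne hi, Pi.single_eq_of_ne hi]
      rfl
  let f : B →ₐ[k] Al (DU D C) :=
    { toFun := f0
      map_one' := by
        have h := halgk 1
        rwa [map_one, map_one] at h
      map_mul' := hmul
      map_zero' := by
        have h := halgk 0
        rwa [map_zero, map_zero] at h
      map_add' := hadd
      commutes' := halgk }
  obtain ⟨F, hF⟩ := Ulift f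
  refine ⟨F.restrictScalars k, fun b i => ?_⟩
  have h1 : (F.restrictScalars k) ((Uhom k B D b).v i) = (f b).v i := hF b i
  rw [h1]
  rfl

theorem t_CH3 (hCORE : S_CORE.{u}) (hSTR3 : S_STR3.{u}) : S_CH3.{u} := by
  intro k B R M _ _ _ _ _ _ j hj _ _ γ hγ ev hev m hm N hN hdet
  classical
  let PM := MvPolynomial (Fin 3 × Fin 2) M
  let L := FractionRing PM
  let t : Fin 3 × Fin 2 → L := fun s => algebraMap PM L (MvPolynomial.X s)
  have htM : AlgebraicIndependent M t := by
    have h1 : (MvPolynomial.aeval t : PM →ₐ[M] L) = IsScalarTower.toAlgHom M PM L := by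
      apply MvPolynomial.algHom_ext
      intro i
      rw [MvPolynomial.aeval_X]
      rfl
    change Function.Injective (MvPolynomial.aeval t : PM →ₐ[M] L)
    rw [h1]
    exact IsFractionRing.injective PM L
  let ι : M →ₐ[k] L := IsScalarTower.toAlgHom k M L
  -- the algebra structures
  let _ : Algebra R M := γ.toRingHom.toAlgebra
  have hkRM : IsScalarTower k R M := IsScalarTower.of_algebraMap_eq fun x => (γ.commutes x).symm
  have hγ' : IsScalarTower.toAlgHom k R L = ι.comp γ := by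
    ext x
    exact IsScalarTower.algebraMap_apply R M L x
  have htR : AlgebraicIndependent R t := htM.restrictScalars hγ
  have htk : AlgebraicIndependent k t := htM.restrictScalars (algebraMap k M).injective
  let P := MvPolynomial (Fin 3 × Fin 2) k
  let F := FractionRing P
  let φ : F →ₐ[k] L := IsFractionRing.liftAlgHom (g := (MvPolynomial.aeval t : P →ₐ[k] L)) htk
  have hφ : ∀ s, φ (algebraMap P F (MvPolynomial.X s)) = t s := by
    intro s
    have h1 : φ (algebraMap P F (MvPolynomial.X s)) = (MvPolynomial.aeval t : P →ₐ[k] L)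
        (MvPolynomial.X s) := IsLocalization.lift_eq _ _
    rw [h1, MvPolynomial.aeval_X]
  have hinj : Function.Injective (Algebra.TensorProduct.productMap (ι.comp γ) φ) := by
    rw [← hγ']
    exact Pool.Agent.H413.RS.tensor_inj t htR φ hφ
  -- the universal algebra
  let D : MulData 2 (MvPolynomial (Fin 6) k) :=
    { F := DF3 MvPolynomial.X
      zero := rfl
      comm := (hSTR3.1 _ MvPolynomial.X).1
      col := (hSTR3.1 _ MvPolynomial.X).2 }
  have hD : ∀ i, D.F i = DF3 MvPolynomial.X i := fun i => rfl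
  obtain ⟨hTd, hTi⟩ := hSTR3.2.2 k
  have hT0 : ∀ q, Tg3 k q 0 = 1 := fun q => rfl
  obtain ⟨G, hGinj, hGy, -⟩ := hCORE k F B R L 2 j hj φ (ι.comp γ) (Tg3 k) hT0 hTd (Fin 6)
    (par3 (Tg3 k)) hTi D (fun q i l => by
      rw [hSTR3.2.1 F (Tg3 k) hT0 hTd q i l]
      refine Finset.sum_congr rfl fun m' _ => ?_
      rw [hD]
      have h1 := map_DF3 (MvPolynomial.aeval (par3 (Tg3 k)) :
        MvPolynomial (Fin 6) k →ₐ[k] F).toRingHom MvPolynomial.X i m' l
      have h2 : (fun s => (MvPolynomial.aeval (par3 (Tg3 k)) :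
        MvPolynomial (Fin 6) k →ₐ[k] F).toRingHom (MvPolynomial.X s)) = par3 (Tg3 k) :=
        funext fun s => MvPolynomial.aeval_X _ _
      rw [h2] at h1
      rw [← h1]
      rfl) hinj
  obtain ⟨π, hπ⟩ := exists_pi hSTR3 ev m hm N hN hdet D hD _ rfl
  haveI hPs : Algebra.Smooth k (MvPolynomial (Fin 6) k) := ⟨inferInstance, inferInstance⟩
  have hUs : Algebra.Smooth k (UU k B D) := UU_smooth_base
  refine smooth_C ι ev (fun b q => ι (ev b q)) (fun b q => rfl) ((Tg3 k).map φ) ?_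
    (UU k B D) hUs G hGinj (fun b => (Uhom k B D b).v) ?_ m N hN hdet _ rfl π hπ
  · have h1 : ((Tg3 k).map φ).det = φ (Tg3 k).det := (AlgHom.map_det φ (Tg3 k)).symm
    rw [h1]
    exact (map_ne_zero φ).2 hTd
  · intro b i
    rw [hGy]
    have h1 : (fun q => (ι.comp γ) (j q b)) = fun q => ι (ev b q) := by
      funext q
      rw [hev]
      rfl
    rw [h1]

end Pool.Agent.H401.QS.CH3
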